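import Mathlib

/-!
# Sofic actions on sets
-/

set_option autoImplicit false

namespace Pool.Agent.N283.SA

/-- The normalised Hamming distance on the symmetric group of a finite set. -/
noncomputable def hd {A : Type} [Fintype A] (σ τ : Equiv.Perm A) : ℝ :=
  (Nat.card {a : A // σ a ≠ τ a} : ℝ) / Fintype.card A

/-- The map `φ : G → Sym(A)` is an `(F, E, ε)`-orbit approximation of the action `α` of `G` on `X`:
there are a finite set `B`, a subset `S` of `A` with `|S| > (1 - ε) |A|` and injective maps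
`π_s : E → B` for `s ∈ S` with `π_{φ(g) s}(x) = π_s(α(g⁻¹) x)` for all `s ∈ S`, `g ∈ F`, `x ∈ E` with
`φ(g) s ∈ S` and `α(g⁻¹) x ∈ E`. -/
def OrbitApprox {G X A : Type} [Group G] [Fintype A] (α : G →* Equiv.Perm X)
    (φ : G → Equiv.Perm A) (F : Finset G) (E : Finset X) (ε : ℝ) : Prop :=
  ∃ (B : Type) (_ : Finite B) (S : Finset A) (π : {s // s ∈ S} → {x // x ∈ E} → B),
    (1 - ε) * Fintype.card A < S.card ∧ (∀ s, Function.Injective (π s)) ∧
      ∀ (s : A) (hs : s ∈ S) (g : G), g ∈ F → ∀ (x : X) (hx : x ∈ E) (hgs : φ g s ∈ S)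
        (hgx : α g⁻¹ x ∈ E), π ⟨φ g s, hgs⟩ ⟨x, hx⟩ = π ⟨s, hs⟩ ⟨α g⁻¹ x, hgx⟩

/-- The action `α` of the group `G` on the set `X` is sofic: for every finite `F ⊆ G`, every finite
`E ⊆ X` and every `ε > 0` there are a finite set `A` and a map `φ : G → Sym(A)` which is unital,
`(F, ε)`-multiplicative and an `(F, E, ε)`-orbit approximation of `α`. -/
def SoficAction {G X : Type} [Group G] (α : G →* Equiv.Perm X) : Prop :=
  ∀ (F : Finset G) (E : Finset X) (ε : ℝ), 0 < ε →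
    ∃ (A : Type) (_ : Fintype A) (φ : G → Equiv.Perm A),
      φ 1 = 1 ∧ (∀ g ∈ F, ∀ h ∈ F, hd (φ (g * h)) (φ g * φ h) < ε) ∧ OrbitApprox α φ F E ε

end Pool.Agent.N283.SA
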