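import Pool.Agent.N283.SA.Grp

/-!
# The group is residually finite; commuting sofic actions whose combined action is not sofic
-/

set_option autoImplicit false

namespace Pool.Agent.N283.SA

open Pool.Agent.N44.NS (E3 el)
open Pool.Agent.W661.RC (HasT)
open Pool.Agent.X232.SF (RF)

noncomputable section

variable {F k : Type} [Field F] [Field k] [Algebra F k]

/-! ### Residual finiteness -/

/-- the points with coordinates in a subfield -/
def inK (K : IntermediateField F k) (y : Pt k) : Prop := (∀ i, co y.1 i ∈ K) ∧ ∀ i, y.2 i ∈ K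

theorem ev_mem {K : IntermediateField F k} {z : Tor k} (hz : ∀ i, co z i ∈ K) (p : B F) :
    ev z p ∈ K := by
  have h : (MvPolynomial.aeval (co z) p : k) ∈ K := by
    have h1 : (MvPolynomial.aeval (co z) p : k) =
        algebraMap K k (MvPolynomial.aeval (fun i => (⟨co z i, hz i⟩ : K)) p) := by
      rw [← MvPolynomial.aeval_algebraMap_apply]
      rfl
    rw [h1]
    exact (MvPolynomial.aeval (fun i => (⟨co z i, hz i⟩ : K)) p).2
  exact h

theorem th0_inK {K : IntermediateField F k} (u : (Matrix (Fin 3) (Fin 3) (B F))ˣ) {y : Pt k}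
    (hy : inK K y) : inK K (th0 u y) := by
  refine ⟨hy.1, fun i => ?_⟩
  show (((ev y.1).mapMatrix (u : Matrix (Fin 3) (Fin 3) (B F))).mulVec y.2) i ∈ K
  unfold Matrix.mulVec dotProduct
  exact sum_mem fun j _ => mul_mem (ev_mem hy.1 _) (hy.2 j)

theorem ap_inK {K : IntermediateField F k} {z : Tor k} (hz : ∀ i, co z i ∈ K) :
    ∀ i, co (ap z) i ∈ K := by
  have h0 := hz 0
  have h1 := hz 1
  have h2 := hz 2
  simp only [co, Matrix.cons_val] at h0 h1 h2
  intro i
  fin_cases i
  · exact h2
  · show ((z.2.1⁻¹ : kˣ) : k) ∈ K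
    rw [Units.val_inv_eq_inv_val]
    exact inv_mem h1
  · exact h0

theorem bp_inK {K : IntermediateField F k} {z : Tor k} (hz : ∀ i, co z i ∈ K) :
    ∀ i, co (bp z) i ∈ K := by
  have h0 := hz 0
  have h1 := hz 1
  have h2 := hz 2
  simp only [co, Matrix.cons_val] at h0 h1 h2
  intro i
  fin_cases i
  · exact h2
  · show ((z.2.2 / z.2.1 : kˣ) : k) ∈ K
    rw [Units.val_div_eq_div_val]
    exact div_mem h2 h1
  · show ((z.1 * z.2.2 / z.2.1 ^ 2 : kˣ) : k) ∈ K
    rw [Units.val_div_eq_div_val, Units.val_mul, Units.val_pow_eq_pow_val]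
    exact div_mem (mul_mem h0 h2) (pow_mem h1 2)

theorem HH_inK (K : IntermediateField F k) {g : Equiv.Perm (Pt k)} (hg : g ∈ HH F k) :
    ∀ y, inK K y ↔ inK K (g y) := by
  induction hg using Subgroup.closure_induction with
  | mem x hx =>
    intro y
    rcases hx with ⟨p, rfl⟩ | hx
    · refine ⟨fun h => th0_inK _ h, fun h => ?_⟩
      have h1 := th0_inK (p.1⁻¹) h
      rw [map_inv] at h1
      simpa using h1
    · have h3 : ∀ z : Tor k, ∀ v : Fin 3 → k, inK K (z, v) → inK K (ap z, v) := fun z v h =>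
        ⟨ap_inK h.1, h.2⟩
      have h4 : ∀ z : Tor k, ∀ v : Fin 3 → k, inK K (z, v) → inK K (bp z, v) := fun z v h =>
        ⟨bp_inK h.1, h.2⟩
      rcases hx with rfl | rfl
      · refine ⟨fun h => h3 y.1 y.2 h, fun h => ?_⟩
        have h5 := h3 _ _ h
        have h6 : ap (ap y.1) = y.1 := DFunLike.congr_fun ap_mul y.1
        rw [h6] at h5
        exact h5
      · refine ⟨fun h => h4 y.1 y.2 h, fun h => ?_⟩
        have h5 := h4 _ _ (h4 _ _ h)
        have h6 : bp (bp (bp y.1)) = y.1 := DFunLike.congr_fun bp_mul y.1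
        rw [h6] at h5
        exact h5
  | one => intro y; exact Iff.rfl
  | mul x z _ _ hx hz =>
    intro y
    rw [Equiv.Perm.mul_apply]
    exact (hz y).trans (hx (z y))
  | inv x _ hx =>
    intro y
    rw [hx (x⁻¹ y)]
    simp

theorem finite_inK [Finite F] (K : IntermediateField F k) [FiniteDimensional F K] :
    Finite {y : Pt k // inK K y} := by
  have hK : Finite K := Module.finite_of_finite F
  let f : {y : Pt k // inK K y} → (Fin 3 → K) × (Fin 3 → K) := fun y =>
    (fun i => ⟨co y.1.1 i, y.2.1 i⟩, fun i => ⟨y.1.2 i, y.2.2 i⟩)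
  refine Finite.of_injective f ?_
  rintro ⟨⟨⟨x, y, z⟩, v⟩, h⟩ ⟨⟨⟨x', y', z'⟩, v'⟩, h'⟩ hf
  have h1 := congrArg Prod.fst hf
  have h2 := congrArg Prod.snd hf
  have e0 := congrArg Subtype.val (congrFun h1 0)
  have e1 := congrArg Subtype.val (congrFun h1 1)
  have e2 := congrArg Subtype.val (congrFun h1 2)
  have e3 : v = v' := funext fun i => congrArg Subtype.val (congrFun h2 i)
  have e0' : x = x' := Units.ext e0
  have e1' : y = y' := Units.ext e1
  have e2' : z = z' := Units.ext e2
  subst e0' e1' e2' e3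
  rfl

theorem rf_GG [Finite F] [Algebra.IsAlgebraic F k] : RF (GG F k) := by
  intro g hg
  have hne : (g : Equiv.Perm (Pt k)) ≠ 1 := fun h => hg (Subtype.ext h)
  obtain ⟨y, hy⟩ : ∃ y, (g : Equiv.Perm (Pt k)) y ≠ y := by
    by_contra hcon
    push Not at hcon
    exact hne (Equiv.ext hcon)
  set S : Set k := Set.range (co y.1) ∪ Set.range y.2 with hS
  have hSf : S.Finite := (Set.finite_range _).union (Set.finite_range _)
  set K : IntermediateField F k := IntermediateField.adjoin F S with hK
  have : Finite S := hSf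
  have hfd : FiniteDimensional F K := IntermediateField.finiteDimensional_adjoin fun x _ =>
    Algebra.IsIntegral.isIntegral x
  have hyK : inK K y := ⟨fun i => IntermediateField.subset_adjoin F S (Or.inl ⟨i, rfl⟩),
    fun i => IntermediateField.subset_adjoin F S (Or.inr ⟨i, rfl⟩)⟩
  have hfin := finite_inK K
  refine ⟨Equiv.Perm {y : Pt k // inK K y}, inferInstance, inferInstance,
    { toFun := fun h => (h : Equiv.Perm (Pt k)).subtypePerm (fun y => (HH_inK K h.2 y).symm)
      map_one' := by ext x <;> rfl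
      map_mul' := fun a b => by ext x <;> rfl }, ?_⟩
  intro h
  apply hy
  have h1 := congrArg Subtype.val (DFunLike.congr_fun h (⟨y, hyK⟩ : {y : Pt k // inK K y}))
  exact h1

/-! ### The conjugates are larger -/

theorem poly_ne [Infinite k] (e : Fin 2) (q : B F) (h : ∀ z : Tor k, ev z q = co (tp e z) 1) : False := by
  -- multiply by a variable
  have key : ∀ j : Fin 3, j ≠ 1 → (∀ z : Tor k, co z j * co (tp e z) 1 = co z 1) → False := by
    intro j hj hz
    set P : MvPolynomial (Fin 3) F := MvPolynomial.X j * q - MvPolynomial.X 1 with hP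
    have h1 : MvPolynomial.map (algebraMap F k) P = 0 := by
      refine MvPolynomial.funext_set (fun _ => {x : k | x ≠ 0}) (fun _ => ?_) ?_
      · exact (Set.finite_singleton (0 : k)).infinite_compl
      · intro x hx
        have hx0 : x 0 ≠ 0 := hx 0 trivial
        have hx1 : x 1 ≠ 0 := hx 1 trivial
        have hx2 : x 2 ≠ 0 := hx 2 trivial
        set z : Tor k := (Units.mk0 _ hx0, Units.mk0 _ hx1, Units.mk0 _ hx2) with hzz
        have hco : co z = x := by
          funext i
          fin_cases i <;> rfl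
        rw [map_zero, MvPolynomial.eval_map, ← MvPolynomial.aeval_def, ← hco]
        show (ev z) P = 0
        rw [hP, map_sub, map_mul]
        have e1 : ∀ i, ev z (MvPolynomial.X i : B F) = co z i := fun i => MvPolynomial.aeval_X _ _
        rw [e1, e1, h z, hz z, sub_self]
    have h2 : P = 0 := by
      have := MvPolynomial.map_injective (σ := Fin 3) (algebraMap F k) (algebraMap F k).injective
      exact this (by rw [h1, map_zero])
    have h3 := congrArg (MvPolynomial.eval (fun i => if i = 1 then (1 : F) else 0)) h2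
    rw [hP, map_sub, map_mul, MvPolynomial.eval_X, MvPolynomial.eval_X, map_zero, if_neg hj,
      if_pos rfl, zero_mul, zero_sub] at h3
    exact neg_ne_zero.2 one_ne_zero h3
  fin_cases e
  · refine key 2 (by decide) ?_
    rintro ⟨x, y, z⟩
    show (z : k) * ((z / y : kˣ)⁻¹ : kˣ) = (y : k)
    push_cast
    field_simp
  · refine key 0 (by decide) ?_
    rintro ⟨x, y, z⟩
    show (x : k) * (((x * z / y ^ 2) / (z / y) : kˣ)⁻¹ : kˣ) = (y : k)
    push_cast
    field_simp

/-- the element of the Kazhdan group -/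
def p1 : E3 (B F) := ⟨el 0 1 (by decide) (MvPolynomial.X 1),
  Subgroup.subset_closure ⟨0, 1, by decide, _, rfl⟩⟩

theorem not_mem [Infinite k] (e : Fin 2) (q : E3 (B F)) :
    th F k p1 * tt F k e ≠ tt F k e * th F k q := by
  intro h
  refine poly_ne (k := k) e ((q.1 : Matrix (Fin 3) (Fin 3) (B F)) 0 1) ?_
  intro z
  have h1 : (th0 (p1 : E3 (B F)).1 * lft (tp e) : Equiv.Perm (Pt k)) = lft (tp e) * th0 q.1 := by
    have := congrArg Subtype.val h
    rw [← tt_coe F k]
    exact this
  have h2 := congrArg Prod.snd (DFunLike.congr_fun h1 (z, Pi.single 1 (1 : k)))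
  have h3 : ((ev (tp e z)).mapMatrix ((p1 : E3 (B F)).1 : Matrix (Fin 3) (Fin 3) (B F))).mulVec (Pi.single 1 (1 : k)) =
    ((ev z).mapMatrix (q.1 : Matrix (Fin 3) (Fin 3) (B F))).mulVec (Pi.single 1 (1 : k)) := h2
  have h4 := congrFun h3 0
  rw [Matrix.mulVec_single_one, Matrix.mulVec_single_one] at h4
  have h5 : ev (tp e z) (((p1 : E3 (B F)).1 : Matrix (Fin 3) (Fin 3) (B F)) 0 1) =
    ev z ((q.1 : Matrix (Fin 3) (Fin 3) (B F)) 0 1) := h4
  rw [← h5]
  have h6 : ((p1 : E3 (B F)).1 : Matrix (Fin 3) (Fin 3) (B F)) 0 1 =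
      MvPolynomial.X 1 := by
    show (1 + Matrix.single 0 1 (MvPolynomial.X 1) : Matrix (Fin 3) (Fin 3) (B F)) 0 1 = _
    simp
  rw [h6]
  exact MvPolynomial.aeval_X _ _

/-! ### Countability -/

theorem countable_closure {G : Type} [Group G] {S : Set G} (hS : S.Countable) :
    Countable (Subgroup.closure S) := by
  have : Countable S := hS
  have h : (FreeGroup.lift (Subtype.val : S → G)).range = Subgroup.closure S := by
    rw [FreeGroup.range_lift_eq_closure, Subtype.range_coe]
  rw [← h]
  exact (FreeGroup.lift (Subtype.val : S → G)).rangeRestrict_surjective.countable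

theorem countable_GG [Fintype F] (hF : 256 ≤ Fintype.card F) : Countable (GG F k) := by
  obtain ⟨n, γ, hγ⟩ := Pool.Agent.N303.KQ.exists_free (hasT_B F hF)
  have : Countable (E3 (B F)) := hγ.countable
  refine countable_closure ?_
  exact (Set.countable_range _).union ((Set.finite_singleton _).insert _).countable

/-! ### The actions -/

variable (F k)

/-- the diagonal copy of the Kazhdan group -/
def dK : Subgroup (GG F k × GG F k) := ((th F k).prod (th F k)).range

/-- the action of `G × G` -/
def act : GG F k × GG F k →* Equiv.Perm ((GG F k × GG F k) ⧸ dK F k) :=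
  MulAction.toPermHom _ _

theorem act_mk (g h : GG F k × GG F k) :
    act F k g (QuotientGroup.mk h) = QuotientGroup.mk (g * h) := rfl

variable {F k}

theorem th_inj_aux (p : E3 (B F)) (u v : GG F k) (h : u⁻¹ * v = th F k p) (h' : v = u) :
    th F k p = 1 := by
  rw [← h, h']; group

theorem free_left (g : GG F k) (x : (GG F k × GG F k) ⧸ dK F k) (h : act F k (g, 1) x = x) :
    g = 1 := by
  induction x using QuotientGroup.induction_on with
  | H z =>
    obtain ⟨u, v⟩ := z
    rw [act_mk, eq_comm, QuotientGroup.eq] at h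
    obtain ⟨p, hp⟩ := h
    have h1 : th F k p = u⁻¹ * (g * u) := congrArg Prod.fst hp
    have h2 : th F k p = v⁻¹ * (1 * v) := congrArg Prod.snd hp
    rw [h2, one_mul, inv_mul_cancel] at h1
    have h3 : u = g * u := by rw [← inv_mul_eq_one, ← h1]
    exact (right_eq_mul.1 h3)

theorem free_right (g : GG F k) (x : (GG F k × GG F k) ⧸ dK F k) (h : act F k (1, g) x = x) :
    g = 1 := by
  induction x using QuotientGroup.induction_on with
  | H z =>
    obtain ⟨u, v⟩ := z
    rw [act_mk, eq_comm, QuotientGroup.eq] at h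
    obtain ⟨p, hp⟩ := h
    have h1 : th F k p = u⁻¹ * (1 * u) := congrArg Prod.fst hp
    have h2 : th F k p = v⁻¹ * (g * v) := congrArg Prod.snd hp
    rw [h1, one_mul, inv_mul_cancel] at h2
    have h3 : v = g * v := by rw [← inv_mul_eq_one, ← h2]
    exact (right_eq_mul.1 h3)

/-- the combined action is not sofic -/
theorem act_not [Fintype F] (hF : 256 ≤ Fintype.card F) [Infinite k] :
    ¬ SoficAction (act F k) := by
  refine not_soficAction (act F k) (hasT_B F hF) ((th F k).prod (th F k)) (aa F k, aa F k)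
    (bb F k, bb F k) (Prod.ext (aa_mul F k) (aa_mul F k)) (Prod.ext (bb_mul F k) (bb_mul F k))
    (fun e => (tt F k e, tt F k e)) rfl rfl ?_ (QuotientGroup.mk 1) ?_ (fun _ => p1) ?_
  · intro e p
    obtain ⟨q, hq⟩ := mono F k e p
    exact ⟨q, Prod.ext hq hq⟩
  · intro p
    rw [act_mk, eq_comm, QuotientGroup.eq]
    exact ⟨p, by simp⟩
  · intro e h
    rw [act_mk, act_mk, eq_comm, QuotientGroup.eq] at h
    obtain ⟨q, hq⟩ := h
    have h1 : th F k q = (tt F k e * 1)⁻¹ * (th F k p1 * (tt F k e * 1)) := congrArg Prod.fst hq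
    refine not_mem (F := F) (k := k) e q ?_
    rw [h1, mul_one]
    group

/-- **Commuting sofic actions whose combined action is not sofic.** -/
theorem final : ∃ (G X : Type) (_ : Group G) (_ : Countable G) (_ : Countable X)
    (α β : G →* Equiv.Perm X) (hc : ∀ g h, Commute (α g) (β h)),
    SoficAction α ∧ SoficAction β ∧ ¬ SoficAction (MonoidHom.noncommCoprod α β hc) ∧
      RF G ∧ (∀ g x, α g x = x → g = 1) ∧ (∀ g x, β g x = x → g = 1) := by
  have : Fact (Nat.Prime 257) := ⟨by norm_num⟩
  have hF : 256 ≤ Fintype.card (ZMod 257) := by rw [ZMod.card]; norm_num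
  obtain ⟨F, _, _, hF⟩ : ∃ (F : Type) (_ : Field F) (_ : Fintype F), 256 ≤ Fintype.card F :=
    ⟨ZMod 257, inferInstance, inferInstance, hF⟩
  obtain ⟨k, _, _, _, _⟩ : ∃ (k : Type) (_ : Field k) (_ : Algebra F k),
      Algebra.IsAlgebraic F k ∧ Infinite k :=
    ⟨AlgebraicClosure F, inferInstance, inferInstance, inferInstance, inferInstance⟩
  set α : GG F k →* Equiv.Perm ((GG F k × GG F k) ⧸ dK F k) :=
    (act F k).comp (MonoidHom.inl _ _) with hα
  set β : GG F k →* Equiv.Perm ((GG F k × GG F k) ⧸ dK F k) :=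
    (act F k).comp (MonoidHom.inr _ _) with hβ
  have hc : ∀ g h, Commute (α g) (β h) := by
    intro g h
    show act F k (g, 1) * act F k (1, h) = act F k (1, h) * act F k (g, 1)
    rw [← map_mul, ← map_mul]
    simp
  have hcG : Countable (GG F k) := countable_GG hF
  have hfa : ∀ g x, α g x = x → g = 1 := fun g x h => free_left g x h
  have hfb : ∀ g x, β g x = x → g = 1 := fun g x h => free_right g x h
  refine ⟨GG F k, (GG F k × GG F k) ⧸ dK F k, inferInstance, hcG, Quotient.countable, α, β, hc,
    free_sofic rf_GG α hfa, free_sofic rf_GG β hfb, ?_, rf_GG, hfa, hfb⟩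
  have : MonoidHom.noncommCoprod α β hc = act F k := by
    ext p x
    rw [MonoidHom.noncommCoprod_apply]
    show (act F k (p.1, 1) * act F k (1, p.2)) x = act F k p x
    rw [← map_mul]
    simp
  rw [this]
  exact act_not hF

end

end Pool.Agent.N283.SA
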