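import Pool.Agent.N283.SA.Defs
import Pool.Agent.X232.SF.Defs

/-!
# Free actions of residually finite groups are sofic
-/

set_option autoImplicit false

namespace Pool.Agent.N283.SA

open Finset
open Pool.Agent.X232.SF (RF)

theorem free_sofic {G X : Type} [Group G] (hG : RF G) (α : G →* Equiv.Perm X)
    (hfree : ∀ g x, α g x = x → g = 1) : SoficAction α := by
  classical
  intro F E ε hε
  -- representatives of the orbits
  let st : Setoid X :=
    { r := fun x y => ∃ g, α g x = y
      iseqv :=
        { refl := fun x => ⟨1, by simp⟩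
          symm := by
            rintro x y ⟨g, rfl⟩
            exact ⟨g⁻¹, by rw [map_inv]; exact (α g).symm_apply_apply x⟩
          trans := by
            rintro x y z ⟨g, rfl⟩ ⟨h, rfl⟩
            exact ⟨h * g, by rw [map_mul]; rfl⟩ } }
  let r : X → X := fun x => (Quotient.mk st x).out
  have hr : ∀ x, ∃ g, α g (r x) = x := fun x => Quotient.exact (Quotient.out_eq (Quotient.mk st x))
  choose h hh using hr
  have hrg : ∀ g x, r (α g x) = r x := by
    intro g x
    have : Quotient.mk st (α g x) = Quotient.mk st x := Quotient.sound ⟨g⁻¹, by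
      rw [map_inv]; exact (α g).symm_apply_apply x⟩
    show (Quotient.mk st (α g x)).out = (Quotient.mk st x).out
    rw [this]
  have hhg : ∀ g x, h (α g x) = g * h x := by
    intro g x
    have h1 := hh (α g x)
    rw [hrg] at h1
    have h2 := hh x
    have h3 : α ((g * h x)⁻¹ * h (α g x)) (r x) = r x := by
      rw [map_mul, Equiv.Perm.mul_apply, h1, map_inv, Equiv.Perm.inv_eq_iff_eq, map_mul,
        Equiv.Perm.mul_apply, h2]
    have h4 := hfree _ _ h3
    rw [inv_mul_eq_one] at h4
    exact h4.symm
  obtain ⟨Q, _, hQ, q, hq⟩ := hG.finset2 (E.image h)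
  have : Fintype Q := Fintype.ofFinite Q
  refine ⟨Q, inferInstance, fun g => Equiv.mulLeft (q g), ?_, ?_, ?_⟩
  · ext x
    simp
  · intro g _ k _
    have : hd (Equiv.mulLeft (q (g * k))) (Equiv.mulLeft (q g) * Equiv.mulLeft (q k)) = 0 := by
      unfold hd
      have h1 : IsEmpty {a : Q // Equiv.mulLeft (q (g * k)) a ≠
          (Equiv.mulLeft (q g) * Equiv.mulLeft (q k)) a} := by
        refine ⟨fun a => a.2 ?_⟩
        simp
      rw [Nat.card_of_isEmpty]
      simp
    rw [this]
    exact hε
  · refine ⟨{y // y ∈ E.image r} × Q, inferInstance, univ, fun s x =>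
      (⟨r x.1, mem_image_of_mem r x.2⟩, s.1⁻¹ * q (h x.1)), ?_, ?_, ?_⟩
    · rw [card_univ]
      have : (0 : ℝ) < Fintype.card Q := by exact_mod_cast Fintype.card_pos
      nlinarith
    · rintro s ⟨x, hx⟩ ⟨y, hy⟩ hxy
      have h1 := congrArg (fun p => p.1.1) hxy
      have h2 := congrArg (fun p => p.2) hxy
      simp only at h1 h2
      have h3 : q (h x) = q (h y) := mul_left_cancel h2
      have h4 : h x = h y := by
        by_contra hne
        exact hq _ (mem_image_of_mem h hx) _ (mem_image_of_mem h hy) hne h3
      have h5 := hh x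
      rw [h4, h1, hh y] at h5
      exact Subtype.ext h5.symm
    · intro s hs g hg x hx hgs hgx
      refine Prod.ext (Subtype.ext ?_) ?_
      · exact (hrg g⁻¹ x).symm
      · show (q g * s)⁻¹ * q (h x) = s⁻¹ * q (h (α g⁻¹ x))
        rw [hhg, map_mul, map_inv]
        group

end Pool.Agent.N283.SA
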