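import Pool.Agent.N283.SA.Main
import Pool.Agent.N283.SA.Free
import Pool.Agent.N169.NS.TT

/-!
# A residually finite group and a Kazhdan subgroup

The group `H` acts on `(k^×)³ × k³`, `k` an algebraic closure of the field with `257` elements. It is
generated by the group `E_3(F[x,y,z])` (which acts on `k³` over the torus) and by the modular group,
which acts on the torus by monomial maps.
-/

set_option autoImplicit false

namespace Pool.Agent.N283.SA

open Pool.Agent.N44.NS (E3 el)
open Pool.Agent.W661.RC (HasT)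
open Pool.Agent.X232.SF (RF)

noncomputable section

variable (F k : Type) [Field F] [Field k] [Algebra F k]

/-- polynomials in three variables -/
abbrev B : Type := MvPolynomial (Fin 3) F

/-- the torus -/
abbrev Tor : Type := kˣ × kˣ × kˣ

/-- the points -/
abbrev Pt : Type := Tor k × (Fin 3 → k)

variable {F k}

/-- the coordinates of a point of the torus -/
def co (z : Tor k) : Fin 3 → k := ![z.1, z.2.1, z.2.2]

/-- evaluation -/
def ev (z : Tor k) : B F →+* k := (MvPolynomial.aeval (co z) : B F →ₐ[F] k).toRingHom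

/-- the action of matrices -/
def th0 : (Matrix (Fin 3) (Fin 3) (B F))ˣ →* Equiv.Perm (Pt k) where
  toFun u :=
    { toFun := fun y => (y.1, ((ev y.1).mapMatrix (u : Matrix (Fin 3) (Fin 3) (B F))).mulVec y.2)
      invFun := fun y => (y.1,
        ((ev y.1).mapMatrix ((u⁻¹ : (Matrix (Fin 3) (Fin 3) (B F))ˣ) : Matrix (Fin 3) (Fin 3) (B F))).mulVec
          y.2)
      left_inv := fun y => by
        refine Prod.ext rfl ?_
        show ((ev y.1).mapMatrix _).mulVec (((ev y.1).mapMatrix _).mulVec y.2) = y.2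
        rw [Matrix.mulVec_mulVec, ← map_mul, Units.inv_mul, map_one, Matrix.one_mulVec]
      right_inv := fun y => by
        refine Prod.ext rfl ?_
        show ((ev y.1).mapMatrix _).mulVec (((ev y.1).mapMatrix _).mulVec y.2) = y.2
        rw [Matrix.mulVec_mulVec, ← map_mul, Units.mul_inv, map_one, Matrix.one_mulVec] }
  map_one' := by
    ext1 y
    refine Prod.ext rfl ?_
    show ((ev y.1).mapMatrix _).mulVec y.2 = y.2
    rw [Units.val_one, map_one, Matrix.one_mulVec]
  map_mul' u v := by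
    ext1 y
    refine Prod.ext rfl ?_
    show ((ev y.1).mapMatrix _).mulVec y.2 =
      ((ev y.1).mapMatrix _).mulVec (((ev y.1).mapMatrix _).mulVec y.2)
    rw [Matrix.mulVec_mulVec, ← map_mul, Units.val_mul]

theorem th0_apply (u : (Matrix (Fin 3) (Fin 3) (B F))ˣ) (y : Pt k) : th0 u y =
    (y.1, ((ev y.1).mapMatrix (u : Matrix (Fin 3) (Fin 3) (B F))).mulVec y.2) := rfl

/-- the involution of the torus -/
def ap : Equiv.Perm (Tor k) where
  toFun z := (z.2.2, z.2.1⁻¹, z.1)
  invFun z := (z.2.2, z.2.1⁻¹, z.1)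
  left_inv z := by simp
  right_inv z := by simp

/-- the map of order three of the torus -/
def bp : Equiv.Perm (Tor k) where
  toFun z := (z.2.2, z.2.2 / z.2.1, z.1 * z.2.2 / z.2.1 ^ 2)
  invFun z := (z.1 * z.2.2 / z.2.1 ^ 2, z.1 / z.2.1, z.1)
  left_inv z := by
    obtain ⟨x, y, z⟩ := z
    refine Prod.ext (Units.ext ?_) (Prod.ext (Units.ext ?_) (Units.ext ?_))
    · push_cast
      field_simp
    · push_cast
      field_simp
    · push_cast
      field_simp
  right_inv z := by
    obtain ⟨x, y, z⟩ := z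
    refine Prod.ext (Units.ext ?_) (Prod.ext (Units.ext ?_) (Units.ext ?_))
    · push_cast
      field_simp
    · push_cast
      field_simp
    · push_cast
      field_simp

/-- a permutation of the torus acts on the points -/
def lft (τ : Equiv.Perm (Tor k)) : Equiv.Perm (Pt k) := Equiv.prodCongr τ (Equiv.refl _)

theorem lft_mul (τ σ : Equiv.Perm (Tor k)) : lft (τ * σ) = lft τ * lft σ := rfl

theorem lft_apply (τ : Equiv.Perm (Tor k)) (y : Pt k) : lft τ y = (τ y.1, y.2) := rfl

theorem lft_one : lft (1 : Equiv.Perm (Tor k)) = 1 := rfl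

theorem ap_mul : (ap : Equiv.Perm (Tor k)) * ap = 1 := by
  ext1 z
  show ap (ap z) = z
  simp [ap]

theorem bp_mul : (bp : Equiv.Perm (Tor k)) * (bp * bp) = 1 := by
  ext1 z
  show bp (bp (bp z)) = z
  obtain ⟨x, y, z⟩ := z
  simp only [bp, Equiv.coe_fn_mk]
  refine Prod.ext (Units.ext ?_) (Prod.ext (Units.ext ?_) (Units.ext ?_))
  · push_cast
    field_simp
  · push_cast
    field_simp
  · push_cast
    field_simp

/-! ### Monomial substitutions -/

/-- the inverses of `ab`, `ab²` on the torus -/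
def sg : Fin 2 → Tor k → Tor k
  | 0, z => (z.1 * z.2.1 ^ 2 * z.2.2, z.2.1 * z.2.2, z.2.2)
  | 1, z => (z.1, z.1 * z.2.1, z.1 * z.2.1 ^ 2 * z.2.2)

/-- the elements `ab`, `ab²` on the torus -/
def tp : Fin 2 → Equiv.Perm (Tor k)
  | 0 => ap * bp
  | 1 => ap * (bp * bp)

theorem sg_tp (e : Fin 2) (z : Tor k) : sg e (tp e z) = z := by
  obtain ⟨x, y, z⟩ := z
  fin_cases e
  · show sg 0 (ap (bp (x, y, z))) = _
    simp only [sg, ap, bp, Equiv.coe_fn_mk]
    refine Prod.ext (Units.ext ?_) (Prod.ext (Units.ext ?_) (Units.ext ?_))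
    · push_cast
      field_simp
    · push_cast
      field_simp
    · push_cast
      field_simp
  · show sg 1 (ap (bp (bp (x, y, z)))) = _
    simp only [sg, ap, bp, Equiv.coe_fn_mk]
    refine Prod.ext (Units.ext ?_) (Prod.ext (Units.ext ?_) (Units.ext ?_))
    · push_cast
      field_simp
    · push_cast
      field_simp
    · push_cast
      field_simp

open MvPolynomial in
/-- the monomials -/
def mo : Fin 2 → Fin 3 → B F
  | 0 => ![X 0 * X 1 ^ 2 * X 2, X 1 * X 2, X 2]
  | 1 => ![X 0, X 0 * X 1, X 0 * X 1 ^ 2 * X 2]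

/-- the substitution -/
def fe (e : Fin 2) : B F →+* B F := (MvPolynomial.aeval (mo e) : B F →ₐ[F] B F).toRingHom

theorem ev_fe (e : Fin 2) (z : Tor k) (p : B F) : ev z (fe e p) = ev (sg e z) p := by
  have h : (MvPolynomial.aeval (co z) : B F →ₐ[F] k).comp (MvPolynomial.aeval (mo e) : B F →ₐ[F] B F) =
      MvPolynomial.aeval (co (sg e z)) := by
    apply MvPolynomial.algHom_ext
    intro i
    fin_cases e <;> fin_cases i <;> simp [mo, co, sg]
  exact DFunLike.congr_fun h p

/-- ring homomorphisms act on elementary groups -/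
def mapE {A A' : Type} [Ring A] [Ring A'] (f : A →+* A') : E3 A →* E3 A' :=
  ((Units.map (f.mapMatrix : Matrix (Fin 3) (Fin 3) A →+* _).toMonoidHom).comp
    (E3 A).subtype).codRestrict (E3 A') (by
      intro u
      have h : (E3 A).map (Units.map (f.mapMatrix : Matrix (Fin 3) (Fin 3) A →+* _).toMonoidHom) ≤
          E3 A' := by
        unfold E3
        rw [MonoidHom.map_closure, Subgroup.closure_le]
        rintro _ ⟨_, ⟨i, j, h, a, rfl⟩, rfl⟩
        refine Subgroup.subset_closure ⟨i, j, h, f a, ?_⟩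
        apply Units.ext
        show (1 + Matrix.single i j a : Matrix (Fin 3) (Fin 3) A).map f = 1 + Matrix.single i j (f a)
        rw [Matrix.map_add f (map_add f), Matrix.map_single, Matrix.map_one f (map_zero f) (map_one f)]
      exact h ⟨u, u.2, rfl⟩)

theorem mapE_coe {A A' : Type} [Ring A] [Ring A'] (f : A →+* A') (u : E3 A) :
    ((mapE f u : (Matrix (Fin 3) (Fin 3) A')ˣ) : Matrix (Fin 3) (Fin 3) A') =
      f.mapMatrix ((u : (Matrix (Fin 3) (Fin 3) A)ˣ) : Matrix (Fin 3) (Fin 3) A) := rfl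

theorem mono0 (e : Fin 2) (p : E3 (B F)) : (lft (tp e) * th0 p.1 : Equiv.Perm (Pt k)) =
    th0 (mapE (fe e) p).1 * lft (tp e) := by
  ext1 y
  rw [Equiv.Perm.mul_apply, Equiv.Perm.mul_apply, th0_apply, th0_apply, lft_apply, lft_apply,
    mapE_coe]
  have h : (ev y.1).mapMatrix (p.1 : Matrix (Fin 3) (Fin 3) (B F)) =
      (ev (tp e y.1)).mapMatrix ((fe e).mapMatrix (p.1 : Matrix (Fin 3) (Fin 3) (B F))) := by
    ext i j
    rw [RingHom.mapMatrix_apply, RingHom.mapMatrix_apply, RingHom.mapMatrix_apply,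
      Matrix.map_apply, Matrix.map_apply, Matrix.map_apply, ev_fe, sg_tp]
  rw [h]

/-! ### the group -/

variable (F k)

/-- the generators -/
def gs : Set (Equiv.Perm (Pt k)) := Set.range (fun p : E3 (B F) => th0 p.1) ∪ {lft ap, lft bp}

/-- the group -/
def HH : Subgroup (Equiv.Perm (Pt k)) := Subgroup.closure (gs F k)

/-- the group as a type -/
abbrev GG : Type := HH F k

/-- the Kazhdan group in it -/
def th : E3 (B F) →* GG F k := (th0.comp (E3 (B F)).subtype).codRestrict (HH F k) fun p =>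
  Subgroup.subset_closure (Or.inl ⟨p, rfl⟩)

/-- the element of order two -/
def aa : GG F k := ⟨lft ap, Subgroup.subset_closure (Or.inr (Or.inl rfl))⟩

/-- the element of order three -/
def bb : GG F k := ⟨lft bp, Subgroup.subset_closure (Or.inr (Or.inr rfl))⟩

/-- the two monotone elements -/
def tt : Fin 2 → GG F k
  | 0 => aa F k * bb F k
  | 1 => aa F k * (bb F k * bb F k)

theorem tt_coe (e : Fin 2) : (tt F k e : Equiv.Perm (Pt k)) = lft (tp e) := by
  fin_cases e <;> rfl

theorem aa_mul : aa F k * aa F k = 1 := Subtype.ext (by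
  show (lft ap * lft ap : Equiv.Perm (Pt k)) = 1
  rw [← lft_mul, ap_mul, lft_one])

theorem bb_mul : bb F k * (bb F k * bb F k) = 1 := Subtype.ext (by
  show (lft bp * (lft bp * lft bp) : Equiv.Perm (Pt k)) = 1
  rw [← lft_mul, ← lft_mul, bp_mul, lft_one])

theorem mono (e : Fin 2) (p : E3 (B F)) : ∃ q, tt F k e * th F k p = th F k q * tt F k e :=
  ⟨mapE (fe e) p, Subtype.ext (by
    show (tt F k e : Equiv.Perm (Pt k)) * th0 p.1 =
      th0 (mapE (fe e) p).1 * (tt F k e : Equiv.Perm (Pt k))
    rw [tt_coe, mono0])⟩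

/-! ### property (T) -/

theorem hasT_B [Fintype F] (hF : 256 ≤ Fintype.card F) : HasT (E3 (B F)) := by
  refine Pool.Agent.N169.NS.t_TT F hF (B F)
    ![MvPolynomial.X 0, MvPolynomial.X 1, MvPolynomial.X 2, 0] ?_
  · rw [eq_top_iff, ← MvPolynomial.adjoin_range_X]
    refine Algebra.adjoin_mono ?_
    rintro _ ⟨i, rfl⟩
    fin_cases i
    · exact ⟨0, rfl⟩
    · exact ⟨1, rfl⟩
    · exact ⟨2, rfl⟩

end

end Pool.Agent.N283.SA
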