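import Pool.Agent.N283.SA.Words
import Pool.Agent.N44.NS.Main
import Pool.Agent.X232.SF.Conc

/-!
# A criterion for actions which are not sofic
-/

set_option autoImplicit false

namespace Pool.Agent.N283.SA

open Finset
open Pool.Agent.N303.KS
open Pool.Agent.W661.RC (HasT)
open Pool.Agent.N44.NS (mono_count)

noncomputable section

/-- a piece that is moved by `β` into a piece of size at most `7/5` times its size does not
exist if there is a label as in a sofic action -/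
theorem strict {V B : Type} [Fintype V] [Fintype B] {k : ℕ} {ρ : FreeGroup (Fin k) →* Equiv.Perm V}
    {Z : V → Prop} {κ τ τ₁ Λ : ℝ} {L : V → Option V} (hS : Sys ρ Z κ τ τ₁ L) (hκ : 0 < κ)
    (hκ1 : κ ≤ 1 / 1000) (hτ₁ : 0 ≤ τ₁) (hτ₁1 : τ₁ ≤ 1 / 1000) (hτ₁2 : τ₁ * (1 + k) ≤ τ)
    (hΛ : Λ * τ₁ ≤ 1 / 100) (β : Equiv.Perm V) (u : FreeGroup (Fin k))
    (hu : ∀ p : V → Prop, (ct fun x => p x ∧ ¬ p (ρ u x)) ≤ Λ * bd ρ p)
    (l0 l1 : V → Option B)
    (h0 : ∀ s x, ¬ Z x → l0 (ρ (FreeGroup.of s) x) = l0 x)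
    (h1 : ∀ x, ¬ Z x → l1 (β x) = l0 x)
    (h2 : ∀ x, ¬ Z x → l1 (ρ u x) ≠ l1 x) {i j : V} (hi : 0 < sz L i)
    (hij : (1 - κ) * sz L i ≤ ov L β i j) : 7 / 5 * sz L i < sz L j := by
  classical
  by_contra hcon
  push Not at hcon
  have hj0 : 0 < sz L j := by
    have := ov_le2 L β i j
    nlinarith
  have hj1 : (1 - κ) * sz L i ≤ sz L j := hij.trans (ov_le2 L β i j)
  -- the majority label
  obtain ⟨c, hc⟩ : ∃ c, (1 - κ) * sz L i ≤ ct fun y => L y = some i ∧ l0 y = c := by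
    have hsum : ∀ J : Finset (Option B), (∑ c ∈ J, ct fun y => L y = some i ∧ l0 y = c) =
        ct fun y => L y = some i ∧ l0 y ∈ J := by
      intro J
      rw [ct_fiber (fun y => L y = some i ∧ l0 y ∈ J) l0]
      rw [← sum_filter_add_sum_filter_not univ (· ∈ J)]
      have e1 : ∑ c ∈ univ.filter (fun c => ¬ c ∈ J), (ct fun a => (L a = some i ∧ l0 a ∈ J) ∧
          l0 a = c) = 0 := by
        refine sum_eq_zero fun c hc => ct_false ?_
        rintro a ⟨⟨-, ha⟩, rfl⟩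
        exact (mem_filter.1 hc).2 ha
      rw [e1, add_zero]
      have e2 : univ.filter (fun c => c ∈ J) = J := by ext c; simp
      rw [e2]
      refine sum_congr rfl fun c hc => ct_congr fun a => ?_
      constructor
      · rintro ⟨h, rfl⟩; exact ⟨⟨h, hc⟩, rfl⟩
      · rintro ⟨⟨h, -⟩, rfl⟩; exact ⟨h, rfl⟩
    refine majority (κ := κ) (T := sz L i) (by linarith) hi ?_ ?_
    · intro J
      rw [hsum J]
      refine hS.irr i _ (fun x hx => hx.1) ?_
      have hb : bd ρ (fun y => L y = some i ∧ l0 y ∈ J) ≤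
          bd ρ (fun y => L y = some i) + k * ct fun y => L y = some i ∧ Z y := by
        unfold bd
        have : (k : ℝ) * (ct fun y => L y = some i ∧ Z y) =
            ∑ _s : Fin k, ct fun y => L y = some i ∧ Z y := by simp
        rw [this, ← sum_add_distrib]
        refine sum_le_sum fun s _ => ct_le_add ?_
        rintro y ⟨⟨hy1, hy2⟩, hy3⟩
        by_cases c1 : L (ρ (FreeGroup.of s) y) = some i
        · right
          refine ⟨hy1, ?_⟩
          by_contra hZ
          apply hy3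
          refine ⟨c1, ?_⟩
          rw [h0 s y hZ]; exact hy2
        · exact Or.inl ⟨hy1, c1⟩
      have hb1 := hS.bdy i
      have hb2 : (k : ℝ) * (ct fun y => L y = some i ∧ Z y) ≤ k * (τ₁ * sz L i) :=
        mul_le_mul_of_nonneg_left (hS.err i) (Nat.cast_nonneg _)
      calc _ ≤ τ₁ * sz L i + k * (τ₁ * sz L i) := by linarith
        _ = τ₁ * (1 + k) * sz L i := by ring
        _ ≤ τ * sz L i := mul_le_mul_of_nonneg_right hτ₁2 hi.le
    · have := hsum univ
      rw [this]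
      have e3 : (ct fun y => L y = some i ∧ l0 y ∈ (univ : Finset (Option B))) = sz L i :=
        ct_congr fun y => by simp
      rw [e3]; linarith
  -- the points of the piece `j` with this label
  set q : V → Prop := fun x => L x = some j ∧ l1 x = c with hq
  have hq1 : (1 - 3 * κ) * sz L i - τ₁ * sz L i ≤ ct q := by
    have e1 : ov L β i j ≤ (ct fun x => q (β x)) +
        ((ct fun x => L x = some i ∧ ¬ l0 x = c) + ct fun x => L x = some i ∧ Z x) := by
      refine (ct_le_add (q := fun x => q (β x)) (r := fun x => (L x = some i ∧ ¬ l0 x = c) ∨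
        (L x = some i ∧ Z x)) ?_).trans (add_le_add le_rfl (ct_le_add fun x hx => hx))
      rintro x ⟨hx1, hx2⟩
      by_cases c1 : Z x
      · exact Or.inr (Or.inr ⟨hx1, c1⟩)
      by_cases c2 : l0 x = c
      · left
        refine ⟨hx2, ?_⟩
        rw [h1 x c1]; exact c2
      · exact Or.inr (Or.inl ⟨hx1, c2⟩)
    rw [ct_perm q β] at e1
    have e2 := ct_split (fun x => L x = some i) (fun x => l0 x = c)
    have e3 := hS.err i
    have e4 : (ct fun x => L x = some i) = sz L i := rfl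
    have e5 : 0 < κ * sz L i := mul_pos hκ hi
    linarith
  have hq2 : ct q ≤ sz L j := ct_mono fun x hx => hx.1
  have hq3 : 7 / 10 * sz L j ≤ ct q := by nlinarith
  -- most of them stay there under `u`
  have hq4 : (ct fun x => q x ∧ q (ρ u x)) ≤ τ₁ * sz L j := by
    refine le_trans (ct_mono ?_) (hS.err j)
    rintro x ⟨⟨hx1, hx2⟩, -, hx4⟩
    refine ⟨hx1, ?_⟩
    by_contra hZ
    exact h2 x hZ (hx4.trans hx2.symm)
  have hq5 : ct q ≤ (ct fun x => q x ∧ q (ρ u x)) +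
      ((ct fun x => L x = some j ∧ ¬ L (ρ u x) = some j) +
        ct fun x => L (ρ u x) = some j ∧ ¬ q (ρ u x)) := by
    refine (ct_le_add (q := fun x => q x ∧ q (ρ u x)) (r := fun x =>
      (L x = some j ∧ ¬ L (ρ u x) = some j) ∨ (L (ρ u x) = some j ∧ ¬ q (ρ u x))) ?_).trans
      (add_le_add le_rfl (ct_le_add fun x hx => hx))
    intro x hx
    by_cases c1 : q (ρ u x)
    · exact Or.inl ⟨hx, c1⟩
    by_cases c2 : L (ρ u x) = some j
    · exact Or.inr (Or.inr ⟨c2, c1⟩)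
    · exact Or.inr (Or.inl ⟨hx.1, c2⟩)
  rw [ct_perm (fun x => L x = some j ∧ ¬ q x) (ρ u)] at hq5
  have hq6 := hu fun x => L x = some j
  have hq7 : Λ * bd ρ (fun x => L x = some j) ≤ 1 / 100 * sz L j := by
    rcases le_total 0 Λ with hΛ0 | hΛ0
    · calc Λ * bd ρ (fun x => L x = some j) ≤ Λ * (τ₁ * sz L j) :=
            mul_le_mul_of_nonneg_left (hS.bdy j) hΛ0
        _ = Λ * τ₁ * sz L j := by ring
        _ ≤ 1 / 100 * sz L j := mul_le_mul_of_nonneg_right hΛ hj0.le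
    · have h3 := bd_nonneg ρ (fun x => L x = some j)
      nlinarith
  have hq8 := ct_split (fun x => L x = some j) q
  have hq9 : (ct fun x => L x = some j ∧ q x) = ct q := ct_congr fun x =>
    ⟨fun h => h.2, fun h => ⟨h.1, h⟩⟩
  have hq10 : (ct fun x => L x = some j) = sz L j := rfl
  nlinarith

open Classical in
/-- the number of points of the piece of a point -/
def ps {V : Type} [Fintype V] (L : V → Option V) (x : V) : ℕ :=
  match L x with
  | none => 0
  | some i => (univ.filter fun y => L y = some i).card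

theorem ps_some {V : Type} [Fintype V] {L : V → Option V} {x i : V} (h : L x = some i) :
    (ps L x : ℝ) = sz L i := by
  unfold sz ct
  simp only [ps, h]
  congr!

/-- **A criterion for an action not to be sofic.** -/
theorem not_soficAction {G X P : Type} [Group G] [Group P] (α : G →* Equiv.Perm X) (hT : HasT P)
    (θ : P →* G) (a b : G) (ha : a * a = 1) (hb : b * (b * b) = 1) (t : Fin 2 → G)
    (ht0 : t 0 = a * b) (ht1 : t 1 = a * (b * b)) (hmono : ∀ e p, ∃ q, t e * θ p = θ q * t e)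
    (x0 : X) (hfix : ∀ p, α (θ p) x0 = x0) (p1 : Fin 2 → P)
    (hmov : ∀ e, α (θ (p1 e)) (α (t e) x0) ≠ α (t e) x0) : ¬ SoficAction α := by
  classical
  intro hA
  obtain ⟨k, γ, hγ⟩ := Pool.Agent.N303.KQ.exists_free hT
  have hW : ∀ (e : Fin 2) (s : Fin k), ∃ w : FreeGroup (Fin k),
      t e * θ (γ (FreeGroup.of s)) = θ (γ w) * t e := by
    intro e s
    obtain ⟨q, hq⟩ := hmono e (γ (FreeGroup.of s))
    obtain ⟨w, rfl⟩ := hγ q
    exact ⟨w, hq⟩
  choose W hW using hW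
  choose u hu using fun e => hγ (p1 e)
  -- constants
  set κ : ℝ := 1 / 1000 with hκ
  obtain ⟨τ, hτ0, hτκ, hsys⟩ := exists_sys γ hT hγ (show (0 : ℝ) < κ by norm_num)
    (show κ ≤ 1 / 100 by norm_num)
  choose len hlen using fun w : FreeGroup (Fin k) => word_bd w
  set 𝒲 : Finset (FreeGroup (Fin k)) :=
    ((univ : Finset (Fin 2 × Fin k)).image fun p => W p.1 p.2) ∪
    ((univ : Finset (Fin 2)).image u) with h𝒲
  set Λ : ℝ := 1 + ∑ w ∈ 𝒲, (len w : ℝ) with hΛ
  have hΛ0 : (0 : ℝ) ≤ ∑ w ∈ 𝒲, (len w : ℝ) := sum_nonneg fun _ _ => Nat.cast_nonneg _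
  have hΛ1 : 1 ≤ Λ := by rw [hΛ]; linarith
  have hlenΛ : ∀ w ∈ 𝒲, ∀ (B : Type) [Fintype B] (ρ : FreeGroup (Fin k) →* Equiv.Perm B)
      (p : B → Prop), (ct fun a => p a ∧ ¬ p (ρ w a)) ≤ Λ * bd ρ p := by
    intro w hw B _ ρ p
    refine (hlen w B ρ p).trans (mul_le_mul_of_nonneg_right ?_ (bd_nonneg ρ p))
    have h1 : (len w : ℝ) ≤ ∑ w ∈ 𝒲, (len w : ℝ) :=
      single_le_sum (f := fun w => (len w : ℝ)) (fun _ _ => Nat.cast_nonneg _) hw
    rw [hΛ]; linarith
  set τ₁ : ℝ := κ * τ / ((k + 2) * (1 + Λ)) with hτ₁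
  have hk0 : (0 : ℝ) ≤ k := Nat.cast_nonneg k
  have hden : 0 < ((k : ℝ) + 2) * (1 + Λ) := by positivity
  have hκ0 : (0 : ℝ) < κ := by norm_num
  have hτ₁0 : 0 < τ₁ := by rw [hτ₁]; positivity
  have hnum : τ₁ * ((k + 2) * (1 + Λ)) = κ * τ := by
    rw [hτ₁]; field_simp
  have hn1 : τ₁ * (1 + k * (1 + Λ)) ≤ κ * τ := by
    rw [← hnum]
    refine mul_le_mul_of_nonneg_left ?_ hτ₁0.le
    nlinarith
  have hn2 : τ₁ * (1 + k) ≤ τ := by
    have h1 : τ₁ * (1 + k) ≤ τ₁ * ((k + 2) * (1 + Λ)) := by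
      refine mul_le_mul_of_nonneg_left ?_ hτ₁0.le
      nlinarith
    have h2 : κ * τ ≤ 1 * τ := mul_le_mul_of_nonneg_right (by norm_num) hτ0.le
    linarith
  have hκτ : κ * τ ≤ 1 / 1000000 := by
    rw [hκ]; rw [hκ] at hτκ; linarith
  have hn3 : τ₁ ≤ 1 / 1000 := by
    have h1 : τ₁ * 1 ≤ τ₁ * ((k + 2) * (1 + Λ)) := by
      refine mul_le_mul_of_nonneg_left ?_ hτ₁0.le
      nlinarith
    rw [hnum, mul_one] at h1
    exact h1.trans (hκτ.trans (by norm_num))
  have hn4 : Λ * τ₁ ≤ 1 / 100 := by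
    have h1 : τ₁ * Λ ≤ τ₁ * ((k + 2) * (1 + Λ)) := by
      refine mul_le_mul_of_nonneg_left ?_ hτ₁0.le
      nlinarith
    rw [hnum, mul_comm] at h1
    exact h1.trans (hκτ.trans (by norm_num))
  obtain ⟨ε, hε0, hετ, Rel, hRel, hsys⟩ := hsys τ₁ hτ₁0 (by linarith)
  -- words in the free group on `G`
  set jK : FreeGroup (Fin k) →* FreeGroup G :=
    FreeGroup.lift fun s => FreeGroup.of (θ (γ (FreeGroup.of s))) with hjK
  have hcK : ∀ w, cn G (jK w) = θ (γ w) := by
    intro w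
    have h1 : (cn G).comp jK = θ.comp γ := by
      ext s
      simp [hjK]
    exact DFunLike.congr_fun h1 w
  have hco : ∀ g : G, cn G (FreeGroup.of g) = g := fun g => by simp
  set E1 : Finset (FreeGroup G) := (univ : Finset (Fin 2 × Fin k)).image fun p =>
    (jK (W p.1 p.2))⁻¹ * (FreeGroup.of (t p.1) * jK (FreeGroup.of p.2) * (FreeGroup.of (t p.1))⁻¹)
    with hE1
  set E2 : Finset (FreeGroup G) := (univ : Finset (Fin 2)).image fun e =>
    (FreeGroup.of (θ (p1 e)))⁻¹ * jK (u e) with hE2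
  set E3 : Finset (FreeGroup G) := {FreeGroup.of a * FreeGroup.of a,
    FreeGroup.of b * (FreeGroup.of b * FreeGroup.of b),
    (FreeGroup.of (t 0))⁻¹ * (FreeGroup.of a * FreeGroup.of b),
    (FreeGroup.of (t 1))⁻¹ * (FreeGroup.of a * (FreeGroup.of b * FreeGroup.of b))} with hE3
  set E : Finset (FreeGroup G) := Rel.image jK ∪ (E1 ∪ (E2 ∪ E3)) with hE
  have hEc : ∀ r ∈ E, cn G r = 1 := by
    intro r hr
    rw [hE] at hr
    simp only [mem_union] at hr
    rcases hr with hr | hr | hr | hr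
    · obtain ⟨w, hw, rfl⟩ := mem_image.1 hr
      rw [hcK, hRel w hw, map_one]
    · obtain ⟨p, -, rfl⟩ := mem_image.1 hr
      rw [map_mul, map_mul, map_mul, map_inv, map_inv, hcK, hcK, hco, hW p.1 p.2]
      group
    · obtain ⟨e, -, rfl⟩ := mem_image.1 hr
      rw [map_mul, map_inv, hcK, hco, hu]
      group
    · rw [hE3] at hr
      simp only [mem_insert, mem_singleton] at hr
      rcases hr with rfl | rfl | rfl | rfl
      · rw [map_mul, hco, ha]
      · rw [map_mul, map_mul, hco, hb]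
      · rw [map_mul, map_mul, map_inv, hco, hco, hco, ht0]; group
      · rw [map_mul, map_mul, map_mul, map_inv, hco, hco, hco, ht1]; group
  -- the approximation
  obtain ⟨F0, δ, hδ, hwords⟩ := words E hEc (show 0 < ε / 2 by positivity)
  set F1 : Finset G := ((univ : Finset (Fin k)).image fun s => θ (γ (FreeGroup.of s))) ∪
    (((univ : Finset (Fin 2)).image t) ∪ ((univ : Finset (Fin 2)).image fun e => θ (p1 e))) with hF1
  set EX : Finset X := {x0} ∪ (((univ : Finset (Fin 2)).image fun e => α (t e) x0) ∪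
    ((univ : Finset (Fin 2)).image fun e => α (θ (p1 e))⁻¹ (α (t e) x0))) with hEX
  set ε₂ : ℝ := ε / (2 * (F1.card + 1)) with hε₂
  have hε₂0 : 0 < ε₂ := by positivity
  obtain ⟨A, _, φ, hφ1, hφ2, B, hB, S, π, hS1, hS2, hS3⟩ := hA (F0 ∪ F1) EX (min δ ε₂)
    (lt_min hδ hε₂0)
  have : Fintype B := Fintype.ofFinite B
  set n : ℝ := (Fintype.card A : ℝ) with hn
  have hn0 : 0 ≤ n := Nat.cast_nonneg _
  have hSc : (S.card : ℝ) ≤ n := by
    rw [hn]; exact_mod_cast card_le_univ S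
  have hnpos : 0 < n := by
    rcases hn0.lt_or_eq with h | h
    · exact h
    · rw [← h] at hS1 hSc
      have : (0 : ℝ) ≤ S.card := Nat.cast_nonneg _
      simp at hS1
      have h2 : (S.card : ℝ) ≤ 0 := hSc
      have h3 : (S.card : ℝ) = 0 := le_antisymm h2 this
      have h4 : S.card = 0 := by exact_mod_cast h3
      rw [card_eq_zero] at h4
      rw [h4] at hS1
      simp at hS1
  have hGd : Gd F0 δ φ := by
    refine ⟨hφ1, fun g hg h hh => ?_⟩
    have h1 := hφ2 g (mem_union_left _ hg) h (mem_union_left _ hh)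
    rw [hd_ct, div_lt_iff₀ hnpos] at h1
    refine h1.le.trans (mul_le_mul_of_nonneg_right (min_le_left _ _) hn0)
  set Ψ : FreeGroup G →* Equiv.Perm A := FreeGroup.lift φ with hΨ
  have hΨo : ∀ g, Ψ (FreeGroup.of g) = φ g := fun g => by rw [hΨ, FreeGroup.lift_apply_of]
  have hct1 := hwords A φ hGd
  have hctS : (ct fun y => y ∉ S) ≤ ε₂ * n := by
    have h1 := ct_split (fun _ : A => True) (fun y => y ∈ S)
    have h2 : (ct fun y : A => True ∧ y ∈ S) = S.card := by
      unfold ct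
      congr 2
      ext y; simp
    have h3 : (ct fun y : A => True ∧ ¬ y ∈ S) = ct fun y => y ∉ S := ct_congr fun y => by simp
    rw [ct_univ, h2, h3] at h1
    have h4 : (1 - ε₂) * n ≤ (1 - min δ ε₂) * n :=
      mul_le_mul_of_nonneg_right (by linarith [min_le_right δ ε₂]) hn0
    have h5 : (1 - min δ ε₂) * n < S.card := hS1
    have h6 : (1 - ε₂) * n = n - ε₂ * n := by ring
    have h7 : (Fintype.card A : ℝ) = n := rfl
    linarith
  set Z : A → Prop := fun y => (∃ r ∈ E, Ψ r y ≠ y) ∨ (y ∉ S ∨ ∃ g ∈ F1, φ g y ∉ S) with hZ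
  have hctZ : ct Z ≤ ε * Fintype.card A := by
    have h1 : ct Z ≤ (ct fun y => ∃ r ∈ E, Ψ r y ≠ y) + ct fun y => y ∉ S ∨ ∃ g ∈ F1, φ g y ∉ S :=
      ct_le_add fun y hy => hy
    have h2 : (ct fun y => y ∉ S ∨ ∃ g ∈ F1, φ g y ∉ S) ≤ (ct fun y => y ∉ S) +
        ct fun y => ∃ g ∈ F1, φ g y ∉ S := ct_le_add fun y hy => hy
    have h3 : (ct fun y => ∃ g ∈ F1, φ g y ∉ S) ≤ ∑ g ∈ F1, ct fun y => φ g y ∉ S :=
      ct_le_sum F1 _ fun y hy => hy
    have h4 : ∀ g ∈ F1, (ct fun y => φ g y ∉ S) ≤ ε₂ * n := fun g _ => by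
      rw [ct_perm (fun y => y ∉ S) (φ g)]; exact hctS
    have h5 : (∑ g ∈ F1, ct fun y => φ g y ∉ S) ≤ F1.card * (ε₂ * n) := by
      rw [← nsmul_eq_mul]
      exact sum_le_card_nsmul _ _ _ h4
    have h6 : (F1.card : ℝ) * (ε₂ * n) + ε₂ * n = ε / 2 * n := by
      rw [hε₂]; field_simp
    have h7 : (Fintype.card A : ℝ) = n := rfl
    rw [h7] at hct1 ⊢
    linarith
  have hZE : ∀ r ∈ E, ∀ x, ¬ Z x → Ψ r x = x := by
    intro r hr x hx
    by_contra h
    exact hx (Or.inl ⟨r, hr, h⟩)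
  have hZE2 : ∀ w1 w2 : FreeGroup G, w2⁻¹ * w1 ∈ E → ∀ x, ¬ Z x → Ψ w1 x = Ψ w2 x := by
    intro w1 w2 hr x hx
    have h1 := hZE _ hr x hx
    rw [map_mul, map_inv, Equiv.Perm.mul_apply, Equiv.Perm.inv_eq_iff_eq] at h1
    exact h1
  obtain ⟨L, hS⟩ := hsys A (Ψ.comp jK) Z hctZ (by
    intro w hw x hx
    refine hZE (jK w) ?_ x hx
    rw [hE]
    exact mem_union_left _ (mem_image_of_mem _ hw))
  -- labels
  set lab : X → A → Option B := fun x y =>
    if h : y ∈ S ∧ x ∈ EX then some (π ⟨y, h.1⟩ ⟨x, h.2⟩) else none with hlab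
  have hlab1 : ∀ g ∈ F1, ∀ x ∈ EX, α g⁻¹ x ∈ EX → ∀ y, ¬ Z y →
      lab x (φ g y) = lab (α g⁻¹ x) y := by
    intro g hg x hx hgx y hy
    have h1 : y ∈ S := by
      by_contra h
      exact hy (Or.inr (Or.inl h))
    have h2 : φ g y ∈ S := by
      by_contra h
      exact hy (Or.inr (Or.inr ⟨g, hg, h⟩))
    rw [hlab]
    simp only [dif_pos (And.intro h2 hx), dif_pos (And.intro h1 hgx)]
    rw [hS3 y h1 g (mem_union_right _ hg) x hx h2 hgx]
  have hlab2 : ∀ x ∈ EX, ∀ x' ∈ EX, x ≠ x' → ∀ y, ¬ Z y → lab x y ≠ lab x' y := by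
    intro x hx x' hx' hne y hy
    have h1 : y ∈ S := by
      by_contra h
      exact hy (Or.inr (Or.inl h))
    rw [hlab]
    simp only [dif_pos (And.intro h1 hx), dif_pos (And.intro h1 hx')]
    intro h
    have h2 := hS2 _ (Option.some.inj h)
    exact hne (congrArg Subtype.val h2)
  have hx0 : x0 ∈ EX := by rw [hEX]; simp
  have hx1 : ∀ e, α (t e) x0 ∈ EX := fun e => by
    rw [hEX]
    exact mem_union_right _ (mem_union_left _ (mem_image_of_mem _ (mem_univ e)))
  have hx2 : ∀ e, α (θ (p1 e))⁻¹ (α (t e) x0) ∈ EX := fun e => by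
    rw [hEX]
    exact mem_union_right _ (mem_union_right _ (mem_image.2 ⟨e, mem_univ e, rfl⟩))
  -- the moves
  have hmv : ∀ e : Fin 2, ∃ f : A → A, (ct fun x => ¬ ∃ i, L x = some i ∧
      L (φ (t e) x) = some (f i) ∧ (1 - κ) * sz L i ≤ ov L (φ (t e)) i (f i)) ≤
        5 * κ * Fintype.card A := by
    intro e
    refine mono_count (w := W e) hS hκ0 (by norm_num) hτ0 (hctZ.trans
      (mul_le_mul_of_nonneg_right hετ hn0)) (by linarith) ?_ hn1 hτ₁0.le ?_
    · intro s B _ ρ' p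
      refine hlenΛ (W e s) ?_ B ρ' p
      rw [h𝒲]
      exact mem_union_left _ (mem_image.2 ⟨(e, s), mem_univ _, rfl⟩)
    · intro s x hx
      have h1 := hZE2 (FreeGroup.of (t e) * jK (FreeGroup.of s) * (FreeGroup.of (t e))⁻¹)
        (jK (W e s)) (by
          rw [hE]
          refine mem_union_right _ (mem_union_left _ ?_)
          exact mem_image.2 ⟨(e, s), mem_univ _, rfl⟩) x hx
      rw [map_mul, map_mul, map_inv, hΨo] at h1
      show (Ψ (jK (FreeGroup.of s))) ((φ (t e))⁻¹ x) = (φ (t e))⁻¹ (Ψ (jK (W e s)) x)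
      rw [← h1]
      simp
  choose f hf using hmv
  have hstr : ∀ e x i, L x = some i → (1 - κ) * sz L i ≤ ov L (φ (t e)) i (f e i) →
      7 / 5 * sz L i < sz L (f e i) := by
    intro e x i hxi hi
    have hipos : 0 < sz L i := by
      have : (1 : ℝ) ≤ sz L i := ct_pos' (p := fun y => L y = some i) hxi
      linarith
    refine strict hS hκ0 (by norm_num) hτ₁0.le hn3 hn2 hn4 (φ (t e)) (u e) ?_ (lab x0)
      (lab (α (t e) x0)) ?_ ?_ ?_ hipos hi
    · intro p
      refine hlenΛ (u e) ?_ _ _ p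
      rw [h𝒲]
      exact mem_union_right _ (mem_image_of_mem _ (mem_univ e))
    · intro s y hy
      have h1 : (Ψ.comp jK) (FreeGroup.of s) = φ (θ (γ (FreeGroup.of s))) := by
        rw [MonoidHom.comp_apply, hjK, FreeGroup.lift_apply_of, hΨo]
      have h2 : α (θ (γ (FreeGroup.of s)))⁻¹ x0 = x0 := by
        rw [← map_inv]; exact hfix _
      rw [h1, hlab1 _ (by rw [hF1]; exact mem_union_left _ (mem_image.2 ⟨s, mem_univ _, rfl⟩)) x0
        hx0 (by rw [h2]; exact hx0) y hy, h2]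
    · intro y hy
      have h2 : α (t e)⁻¹ (α (t e) x0) = x0 := by
        rw [map_inv]; exact (α (t e)).symm_apply_apply x0
      rw [hlab1 (t e) (by
        rw [hF1]; exact mem_union_right _ (mem_union_left _ (mem_image_of_mem _ (mem_univ e)))) _
        (hx1 e) (by rw [h2]; exact hx0) y hy, h2]
    · intro y hy
      have h1 := hZE2 (jK (u e)) (FreeGroup.of (θ (p1 e))) (by
        rw [hE]
        refine mem_union_right _ (mem_union_right _ (mem_union_left _ ?_))
        exact mem_image.2 ⟨e, mem_univ _, rfl⟩) y hy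
      rw [hΨo] at h1
      show lab (α (t e) x0) (Ψ (jK (u e)) y) ≠ _
      rw [h1, hlab1 (θ (p1 e)) (by
        rw [hF1]
        exact mem_union_right _ (mem_union_right _ (mem_image.2 ⟨e, mem_univ e, rfl⟩))) _
        (hx1 e) (hx2 e) y hy]
      refine hlab2 _ (hx2 e) _ (hx1 e) ?_ y hy
      intro h
      apply hmov e
      rw [map_inv, Equiv.Perm.inv_eq_iff_eq] at h
      exact h.symm
  -- the counting lemma
  have hlt : ∀ e x, (∃ i, L x = some i ∧
      L (φ (t e) x) = some (f e i) ∧ (1 - κ) * sz L i ≤ ov L (φ (t e)) i (f e i)) →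
      ps L x < ps L (φ (t e) x) := by
    rintro e x ⟨i, h1, h2, h3⟩
    have h4 := hstr e x i h1 h3
    have h5 : (ps L x : ℝ) < ps L (φ (t e) x) := by
      rw [ps_some h1, ps_some h2]
      have : 0 ≤ sz L i := sz_nonneg L i
      linarith
    exact_mod_cast h5
  set Bad : Finset A := univ.filter fun x => Z x ∨ (¬ ps L x < ps L (φ (t 0) x) ∨
    ¬ ps L x < ps L (φ (t 1) x)) with hBad
  have hBadc : (Bad.card : ℝ) ≤ 1 / 60 * n := by
    have h1 : (Bad.card : ℝ) = ct fun x => Z x ∨ (¬ ps L x < ps L (φ (t 0) x) ∨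
        ¬ ps L x < ps L (φ (t 1) x)) := by
      unfold ct
      rw [hBad]
      congr!
    have h2 : (ct fun x => Z x ∨ (¬ ps L x < ps L (φ (t 0) x) ∨ ¬ ps L x < ps L (φ (t 1) x))) ≤
        ct Z + ct fun x => ¬ ps L x < ps L (φ (t 0) x) ∨ ¬ ps L x < ps L (φ (t 1) x) :=
      ct_le_add fun x hx => hx
    have h3 : (ct fun x => ¬ ps L x < ps L (φ (t 0) x) ∨ ¬ ps L x < ps L (φ (t 1) x)) ≤
        (ct fun x => ¬ ps L x < ps L (φ (t 0) x)) + ct fun x => ¬ ps L x < ps L (φ (t 1) x) :=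
      ct_le_add fun x hx => hx
    have h4 : ∀ e, (ct fun x => ¬ ps L x < ps L (φ (t e) x)) ≤ 5 * κ * n := fun e =>
      (ct_mono fun x hx h => hx (hlt e x h)).trans (hf e)
    have h5 : ct Z ≤ 1 / 1000 * n :=
      hctZ.trans (mul_le_mul_of_nonneg_right (by linarith) hn0)
    have h6 := h4 0
    have h7 := h4 1
    rw [hκ] at h6 h7
    rw [h1]
    linarith
  have hkey := Pool.Agent.X232.SF.key (φ a) (φ b) (ps L) Bad ?_ ?_ ?_ ?_
  · have h1 : n ≤ 57 * Bad.card := by
      rw [hn]; exact_mod_cast hkey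
    linarith
  · intro x hx
    have hx' : ¬ Z x := fun h => hx (mem_filter.2 ⟨mem_univ _, Or.inl h⟩)
    have h1 := hZE (FreeGroup.of a * FreeGroup.of a) (by
      rw [hE, hE3]; simp) x hx'
    rw [map_mul, hΨo] at h1
    exact h1
  · intro x hx
    have hx' : ¬ Z x := fun h => hx (mem_filter.2 ⟨mem_univ _, Or.inl h⟩)
    have h1 := hZE (FreeGroup.of b * (FreeGroup.of b * FreeGroup.of b)) (by
      rw [hE, hE3]; simp) x hx'
    rw [map_mul, map_mul, hΨo] at h1
    exact h1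
  · intro x hx
    have hx' : ¬ Z x := fun h => hx (mem_filter.2 ⟨mem_univ _, Or.inl h⟩)
    have hx'' : ps L x < ps L (φ (t 0) x) := by
      by_contra h
      exact hx (mem_filter.2 ⟨mem_univ _, Or.inr (Or.inl h)⟩)
    have h1 := hZE2 (FreeGroup.of a * FreeGroup.of b) (FreeGroup.of (t 0)) (by
      rw [hE, hE3]; simp) x hx'
    rw [map_mul, hΨo, hΨo, hΨo] at h1
    rw [← h1] at hx''
    exact hx''
  · intro x hx
    have hx' : ¬ Z x := fun h => hx (mem_filter.2 ⟨mem_univ _, Or.inl h⟩)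
    have hx'' : ps L x < ps L (φ (t 1) x) := by
      by_contra h
      exact hx (mem_filter.2 ⟨mem_univ _, Or.inr (Or.inr h)⟩)
    have h1 := hZE2 (FreeGroup.of a * (FreeGroup.of b * FreeGroup.of b)) (FreeGroup.of (t 1)) (by
      rw [hE, hE3]; simp) x hx'
    rw [map_mul, map_mul, hΨo, hΨo, hΨo] at h1
    rw [← h1] at hx''
    exact hx''

end

end Pool.Agent.N283.SA
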