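import Pool.Agent.N283.SA.Defs
import Pool.Agent.N303.KS.App

/-!
# Words in approximations
-/

set_option autoImplicit false

namespace Pool.Agent.N283.SA

open Finset
open Pool.Agent.N303.KS (ct ct_nonneg ct_le_of_inj ct_mono ct_congr ct_perm ct_split ct_le_add
  ct_pos ct_pos' ct_false ct_univ ct_le_sum cn)

variable {G : Type} [Group G]

/-- almost multiplicative on a finite set -/
def Gd (F : Finset G) (δ : ℝ) {A : Type} [Fintype A] (φ : G → Equiv.Perm A) : Prop :=
  φ 1 = 1 ∧ ∀ g ∈ F, ∀ h ∈ F, (ct fun y => φ (g * h) y ≠ φ g (φ h y)) ≤ δ * Fintype.card A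

theorem Gd.mono {F F' : Finset G} {δ δ' : ℝ} {A : Type} [Fintype A] {φ : G → Equiv.Perm A}
    (h : Gd F' δ' φ) (hF : F ⊆ F') (hδ : δ' ≤ δ) : Gd F δ φ :=
  ⟨h.1, fun g hg k hk => (h.2 g (hF hg) k (hF hk)).trans
    (mul_le_mul_of_nonneg_right hδ (Nat.cast_nonneg _))⟩

theorem word (w : FreeGroup G) : ∀ η : ℝ, 0 < η → ∃ (F : Finset G) (δ : ℝ), 0 < δ ∧
    ∀ (A : Type) [Fintype A] (φ : G → Equiv.Perm A), Gd F δ φ →
      (ct fun y => FreeGroup.lift φ w y ≠ φ (cn G w) y) ≤ η * Fintype.card A := by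
  classical
  induction w using FreeGroup.induction_on with
  | C1 =>
    intro η hη
    refine ⟨∅, 1, one_pos, fun A _ φ h => ?_⟩
    rw [ct_false]
    · positivity
    · intro y hy
      apply hy
      rw [map_one, map_one, h.1]
  | of a =>
    intro η hη
    refine ⟨∅, 1, one_pos, fun A _ φ h => ?_⟩
    rw [ct_false]
    · positivity
    · intro y hy
      apply hy
      rw [FreeGroup.lift_apply_of, FreeGroup.lift_apply_of, id]
  | inv_of a _ =>
    intro η hη
    refine ⟨{a⁻¹, a}, η, hη, fun A _ φ h => ?_⟩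
    refine le_trans ?_ (h.2 a⁻¹ (by simp) a (by simp))
    rw [← ct_perm (fun y => FreeGroup.lift φ (FreeGroup.of a)⁻¹ y ≠
      φ (cn G (FreeGroup.of a)⁻¹) y) (φ a)]
    refine ct_mono fun y hy h' => hy ?_
    rw [inv_mul_cancel, h.1] at h'
    rw [map_inv, map_inv, FreeGroup.lift_apply_of, FreeGroup.lift_apply_of, id, ← h']
    exact (φ a).symm_apply_apply y
  | mul u v hu hv =>
    intro η hη
    obtain ⟨F1, δ1, hδ1, h1⟩ := hu (η / 3) (by positivity)
    obtain ⟨F2, δ2, hδ2, h2⟩ := hv (η / 3) (by positivity)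
    refine ⟨F1 ∪ F2 ∪ {cn G u, cn G v}, min (min δ1 δ2) (η / 3), by positivity,
      fun A _ φ h => ?_⟩
    have g1 := h1 A φ (h.mono (by intro x hx; simp [hx]) ((min_le_left _ _).trans (min_le_left _ _)))
    have g2 := h2 A φ (h.mono (by intro x hx; simp [hx])
      ((min_le_left _ _).trans (min_le_right _ _)))
    have g3 : (ct fun y => φ (cn G u * cn G v) y ≠ φ (cn G u) (φ (cn G v) y)) ≤
        η / 3 * Fintype.card A :=
      (h.2 _ (by simp) _ (by simp)).trans
        (mul_le_mul_of_nonneg_right (min_le_right _ _) (Nat.cast_nonneg _))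
    have h4 : (ct fun y => FreeGroup.lift φ (u * v) y ≠ φ (cn G (u * v)) y) ≤
        (ct fun y => FreeGroup.lift φ v y ≠ φ (cn G v) y) +
        ct fun y => FreeGroup.lift φ u (φ (cn G v) y) ≠ φ (cn G u) (φ (cn G v) y) ∨
          φ (cn G u * cn G v) y ≠ φ (cn G u) (φ (cn G v) y) := ct_le_add fun y hy => by
      by_cases c1 : FreeGroup.lift φ v y = φ (cn G v) y
      · right
        by_cases c2 : FreeGroup.lift φ u (φ (cn G v) y) = φ (cn G u) (φ (cn G v) y)
        · right
          intro c3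
          apply hy
          rw [map_mul, map_mul, c3, Equiv.Perm.mul_apply, c1, c2]
        · exact Or.inl c2
      · exact Or.inl c1
    have h5 : (ct fun y => FreeGroup.lift φ u (φ (cn G v) y) ≠ φ (cn G u) (φ (cn G v) y) ∨
          φ (cn G u * cn G v) y ≠ φ (cn G u) (φ (cn G v) y)) ≤
        (ct fun y => FreeGroup.lift φ u (φ (cn G v) y) ≠ φ (cn G u) (φ (cn G v) y)) +
          ct fun y => φ (cn G u * cn G v) y ≠ φ (cn G u) (φ (cn G v) y) :=
      ct_le_add fun y hy => hy
    rw [ct_perm (fun y => FreeGroup.lift φ u y ≠ φ (cn G u) y) (φ (cn G v))] at h5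
    linarith

/-- finitely many relators -/
theorem words (E : Finset (FreeGroup G)) (hE : ∀ r ∈ E, cn G r = 1) {ε : ℝ} (hε : 0 < ε) :
    ∃ (F : Finset G) (δ : ℝ), 0 < δ ∧
    ∀ (A : Type) [Fintype A] (φ : G → Equiv.Perm A), Gd F δ φ →
      (ct fun y => ∃ r ∈ E, FreeGroup.lift φ r y ≠ y) ≤ ε * Fintype.card A := by
  classical
  have h : ∀ r : FreeGroup G, ∃ (F : Finset G) (δ : ℝ), 0 < δ ∧
    ∀ (A : Type) [Fintype A] (φ : G → Equiv.Perm A), Gd F δ φ →
      (ct fun y => FreeGroup.lift φ r y ≠ φ (cn G r) y) ≤ ε / (E.card + 1) * Fintype.card A :=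
    fun r => word r _ (by positivity)
  choose F δ hδ hF using h
  have hne : (E.image δ ∪ {1}).Nonempty := ⟨1, by simp⟩
  refine ⟨E.biUnion F, (E.image δ ∪ {1}).min' hne, ?_, fun A _ φ hG => ?_⟩
  · have := Finset.min'_mem _ hne
    rcases mem_union.1 this with h | h
    · obtain ⟨r, -, hr⟩ := mem_image.1 h
      rw [← hr]; exact hδ r
    · rw [mem_singleton.1 h]; exact one_pos
  · have h3 : (ct fun y => ∃ r ∈ E, FreeGroup.lift φ r y ≠ y) ≤
        ∑ r ∈ E, ct fun y => FreeGroup.lift φ r y ≠ y := ct_le_sum E _ fun y hy => hy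
    have h4 : ∀ r ∈ E, (ct fun y => FreeGroup.lift φ r y ≠ y) ≤
        ε / (E.card + 1) * Fintype.card A := by
      intro r hr
      have h5 := hF r A φ (hG.mono (subset_biUnion_of_mem F hr)
        (Finset.min'_le _ _ (by rw [mem_union]; exact Or.inl (mem_image_of_mem _ hr))))
      rw [hE r hr, hG.1] at h5
      exact h5
    have h6 : (∑ r ∈ E, ct fun y => FreeGroup.lift φ r y ≠ y) ≤
        E.card * (ε / (E.card + 1) * Fintype.card A) := by
      rw [← nsmul_eq_mul]
      exact sum_le_card_nsmul _ _ _ h4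
    have h7 : (E.card : ℝ) * (ε / (E.card + 1) * Fintype.card A) ≤ ε * Fintype.card A := by
      have h8 : (E.card : ℝ) * (ε / (E.card + 1) * Fintype.card A) =
          (E.card / (E.card + 1)) * (ε * Fintype.card A) := by field_simp
      rw [h8]
      have h9 : (E.card : ℝ) / (E.card + 1) ≤ 1 := by
        rw [div_le_one (by positivity)]; linarith
      have h10 : 0 ≤ ε * (Fintype.card A : ℝ) := by positivity
      nlinarith
    linarith

theorem hd_ct {A : Type} [Fintype A] (σ τ : Equiv.Perm A) :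
    hd σ τ = (ct fun a => σ a ≠ τ a) / Fintype.card A := by
  classical
  unfold hd ct
  congr 2
  rw [Nat.card_eq_fintype_card, Fintype.card_subtype]
  congr!

end Pool.Agent.N283.SA
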